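import Pool.Agent.Y426.RZ.Only

/-!
# A certificate in `(ℤ/5)^4`

A sequence of 37 vectors of `(ℤ/5)^4` such that in every solution of `x + 3y = 2z + 2w` other
than `x = y = z = w` the index of `x` is smaller than the largest of the other three indices.
-/

set_option autoImplicit false

namespace Pool.Agent.Y426.RZ

/-- The 37 vectors, written one after the other in base `5`. -/
def D : ℕ := 586022305015566599739214265416414019202439706554239117779572539156839667528980169751539620717597858702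

/-- The coordinate `l` of the vector `a`. -/
def dg (a l : ℕ) : ℕ := D / 5 ^ (4 * a + l) % 5

/-- The equation `2x + y + z + w = 0` in the coordinate `l`. -/
def eqn (l a b c d : ℕ) : Bool := Nat.beq ((2 * dg a l + dg b l + dg c l + dg d l) % 5) 0

/-- A solution is trivial. -/
def good (a b c d : ℕ) : Bool :=
  !(eqn 0 a b c d && eqn 1 a b c d && eqn 2 a b c d && eqn 3 a b c d) ||
    (Nat.beq a b && Nat.beq b c && Nat.beq c d)

set_option maxRecDepth 100000 in
theorem check : ∀ a < 37, ∀ b < a + 1, ∀ c < b + 1, ∀ d < c + 1, good a b c d = true := by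
  decide +kernel

theorem eqn_iff (l a b c d : ℕ) :
    eqn l a b c d = true ↔ (2 * dg a l + dg b l + dg c l + dg d l) % 5 = 0 := by
  unfold eqn
  rw [Nat.beq_eq]

/-- `(a, b, c, d)` is a solution. -/
def Sol (a b c d : ℕ) : Prop := ∀ l < 4, (2 * dg a l + dg b l + dg c l + dg d l) % 5 = 0

theorem sol_sorted {a b c d : ℕ} (ha : a < 37) (hb : b ≤ a) (hc : c ≤ b) (hd : d ≤ c)
    (h : Sol a b c d) : a = b ∧ b = c ∧ c = d := by
  have h1 := check a ha b (by omega) c (by omega) d (by omega)
  unfold good at h1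
  rw [(eqn_iff 0 a b c d).2 (h 0 (by norm_num)), (eqn_iff 1 a b c d).2 (h 1 (by norm_num)),
    (eqn_iff 2 a b c d).2 (h 2 (by norm_num)), (eqn_iff 3 a b c d).2 (h 3 (by norm_num))] at h1
  simpa [Nat.beq_eq, and_assoc] using h1

theorem sol_all {a b c d : ℕ} (ha : a < 37) (hb : b ≤ a) (hc : c ≤ a) (hd : d ≤ a)
    (h : Sol a b c d) : a = b ∧ b = c ∧ c = d := by
  have s1 : ∀ b c d : ℕ, Sol a b c d → Sol a c b d := fun b c d h l hl => by
    have := h l hl
    omega
  have s2 : ∀ b c d : ℕ, Sol a b c d → Sol a b d c := fun b c d h l hl => by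
    have := h l hl
    omega
  rcases le_total c b with h1 | h1 <;> rcases le_total d c with h2 | h2 <;>
    rcases le_total d b with h3 | h3
  · have := sol_sorted ha hb h1 h2 h
    omega
  · have := sol_sorted ha hb h1 h2 h
    omega
  · have := sol_sorted ha hb h3 h2 (s2 _ _ _ h)
    omega
  · have := sol_sorted ha hd h3 h1 (s1 _ _ _ (s2 _ _ _ h))
    omega
  · have := sol_sorted ha hc h1 h3 (s1 _ _ _ h)
    omega
  · have := sol_sorted ha hc h2 h3 (s2 _ _ _ (s1 _ _ _ h))
    omega
  · have := sol_sorted ha hd h2 h1 (s1 _ _ _ (s2 _ _ _ (s1 _ _ _ h)))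
    omega
  · have := sol_sorted ha hd h2 h1 (s1 _ _ _ (s2 _ _ _ (s1 _ _ _ h)))
    omega

/-- The vectors as a family of functions. -/
def S (a : Fin 37) (l : Fin 4) : ℕ := dg a l

theorem S_lt : ∀ (a : Fin 37) (l : Fin 4), S a l < 5 := fun a l => Nat.mod_lt _ (by norm_num)

theorem pow_lt_aux {a b : ℕ} (h : a < b) : 3 * (4 : ℤ) ^ a < 4 ^ b := by
  have h1 : (4 : ℤ) ^ (a + 1) ≤ 4 ^ b := pow_le_pow_right₀ (by norm_num) h
  have h2 : (0 : ℤ) < 4 ^ a := by positivity
  rw [pow_succ] at h1
  linarith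

theorem cert : ∀ a b c d : Fin 37,
    (∀ l, (S a l + 3 * S b l) % 5 = (2 * S c l + 2 * S d l) % 5) →
      (a = b ∧ b = c ∧ c = d) ∨
      0 < -3 * (4 : ℤ) ^ (a : ℕ) + (4 : ℤ) ^ (b : ℕ) + (4 : ℤ) ^ (c : ℕ) + (4 : ℤ) ^ (d : ℕ) := by
  intro a b c d h
  have hb0 : (0 : ℤ) < 4 ^ (b : ℕ) := by positivity
  have hc0 : (0 : ℤ) < 4 ^ (c : ℕ) := by positivity
  have hd0 : (0 : ℤ) < 4 ^ (d : ℕ) := by positivity
  by_cases hb : (b : ℕ) ≤ a
  · by_cases hc : (c : ℕ) ≤ a
    · by_cases hd : (d : ℕ) ≤ a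
      · left
        have hs : Sol a b c d := by
          intro l hl
          have h1 := h ⟨l, hl⟩
          unfold S at h1
          simp only at h1
          omega
        have := sol_all a.2 hb hc hd hs
        exact ⟨Fin.ext this.1, Fin.ext this.2.1, Fin.ext this.2.2⟩
      · right
        have := pow_lt_aux (not_le.1 hd)
        linarith
    · right
      have := pow_lt_aux (not_le.1 hc)
      linarith
  · right
    have := pow_lt_aux (not_le.1 hb)
    linarith

end Pool.Agent.Y426.RZ
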