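import Mathlib
import Pool.Agent.H384R2.RuzsaEq2

/-!
# Sets with only trivial solutions of `x + 3y = 2z + 2w`

The arguments of the starting file `H384R2.RuzsaEq2` carried out for sets with no solution besides
`x = y = z = w`.
-/

set_option autoImplicit false

open Finset

namespace Pool.Agent.Y426.RZ

open Pool.Agent.H384R2.RuzsaEq

/-- The only solutions of `x + 3y = 2z + 2w` in `A` are `x = y = z = w`. -/
def OnlyTrivial (A : Finset ℕ) : Prop :=
  ∀ x ∈ A, ∀ y ∈ A, ∀ z ∈ A, ∀ w ∈ A, x + 3 * y = 2 * z + 2 * w → x = y ∧ y = z ∧ z = w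

/-- The largest size of a subset of `[N]` with only trivial solutions. -/
noncomputable def gT (N : ℕ) : ℕ :=
  sSup {k : ℕ | ∃ A : Finset ℕ, A ⊆ Finset.Icc 1 N ∧ OnlyTrivial A ∧ A.card = k}

lemma g_bdd (N : ℕ) :
    BddAbove {k : ℕ | ∃ A : Finset ℕ, A ⊆ Finset.Icc 1 N ∧ OnlyTrivial A ∧ A.card = k} := by
  refine ⟨N, ?_⟩
  rintro k ⟨A, hA, -, rfl⟩
  simpa using Finset.card_le_card hA

lemma le_g {N : ℕ} {A : Finset ℕ} (hA : A ⊆ Finset.Icc 1 N) (hadm : OnlyTrivial A) :
    A.card ≤ gT N :=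
  le_csSup (g_bdd N) ⟨A, hA, hadm, rfl⟩

lemma g_attained (N : ℕ) :
    ∃ A : Finset ℕ, A ⊆ Finset.Icc 1 N ∧ OnlyTrivial A ∧ A.card = gT N := by
  have h := Nat.sSup_mem (s := {k : ℕ | ∃ A : Finset ℕ, A ⊆ Finset.Icc 1 N ∧ OnlyTrivial A ∧
    A.card = k}) ⟨0, ∅, by simp, (by intro x hx; simp at hx), by simp⟩ (g_bdd N)
  exact h

/-! ### from strongly admissible families in `(ℤ/m)^ι` to `[N]` -/

theorem g_ge_of_SA {W ι : Type*} [Fintype W] [DecidableEq W] [Fintype ι] (m : ℕ) (hm : 0 < m)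
    (v : W → ι → ℕ) (hv : ∀ x i, v x i < m)
    (hSA : ∀ x y z w : W, (∀ i, (v x i + 3 * v y i) % m = (2 * v z i + 2 * v w i) % m) →
      x = y ∧ y = z ∧ z = w) (r : ℕ) :
    Fintype.card W ^ r ≤ gT ((4 * m ^ r) ^ Fintype.card ι) := by
  classical
  set D := Fintype.card ι with hD
  set e : ι ≃ Fin D := Fintype.equivFin ι with he
  set b : ℕ := 4 * m ^ r with hb
  have hmr : 0 < m ^ r := pow_pos hm r
  let X : (Fin r → W) → ℕ := fun t => 1 + ∑ j : Fin D, vec m v r t (e.symm j) * b ^ (j : ℕ)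
  have hvec : ∀ t i, vec m v r t i < m ^ r := fun t i => digits_lt m r _ fun k => hv _ _
  have key : ∀ x y z w : Fin r → W, X x + 3 * X y = 2 * X z + 2 * X w →
      x = y ∧ y = z ∧ z = w := by
    intro x y z w h
    refine lift_SA m v hm hSA r x y z w ?_
    have hz := digits_zero (b : ℤ) D (fun j => (vec m v r x (e.symm j) : ℤ)
      + 3 * vec m v r y (e.symm j) - 2 * vec m v r z (e.symm j) - 2 * vec m v r w (e.symm j))
      (by
        intro j
        have h1 := hvec x (e.symm j)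
        have h2 := hvec y (e.symm j)
        have h3 := hvec z (e.symm j)
        have h4 := hvec w (e.symm j)
        rw [abs_lt]
        constructor
        · push_cast [hb]; zify at h1 h2 h3 h4; linarith
        · push_cast [hb]; zify at h1 h2 h3 h4; linarith)
      (by
        have h' : ((X x : ℕ) : ℤ) + 3 * (X y : ℕ) = 2 * (X z : ℕ) + 2 * (X w : ℕ) := by
          exact_mod_cast h
        simp only [X] at h'
        push_cast at h'
        have : ∑ j : Fin D, ((vec m v r x (e.symm j) : ℤ)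
            + 3 * vec m v r y (e.symm j) - 2 * vec m v r z (e.symm j)
            - 2 * vec m v r w (e.symm j)) * (b : ℤ) ^ (j : ℕ)
          = ∑ j : Fin D, (vec m v r x (e.symm j) : ℤ) * (b : ℤ) ^ (j : ℕ)
            + 3 * ∑ j : Fin D, (vec m v r y (e.symm j) : ℤ) * (b : ℤ) ^ (j : ℕ)
            - 2 * ∑ j : Fin D, (vec m v r z (e.symm j) : ℤ) * (b : ℤ) ^ (j : ℕ)
            - 2 * ∑ j : Fin D, (vec m v r w (e.symm j) : ℤ) * (b : ℤ) ^ (j : ℕ) := by
          simp only [Finset.mul_sum, ← Finset.sum_add_distrib, ← Finset.sum_sub_distrib]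
          refine Finset.sum_congr rfl fun j _ => ?_
          ring
        rw [this]
        linarith)
    intro i
    have := hz (e i)
    simp only [Equiv.symm_apply_apply] at this
    zify
    linarith
  have hinj : Function.Injective X := by
    intro x y hxy
    exact (key x y x x (by rw [← hxy]; ring)).1
  let A : Finset ℕ := Finset.univ.image X
  have hcard : A.card = Fintype.card W ^ r := by
    rw [Finset.card_image_of_injective _ hinj, Finset.card_univ, Fintype.card_fun,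
      Fintype.card_fin]
  rw [← hcard]
  refine le_g ?_ ?_
  · intro a ha
    obtain ⟨t, -, rfl⟩ := Finset.mem_image.mp ha
    rw [Finset.mem_Icc]
    refine ⟨Nat.le_add_right _ _, ?_⟩
    have h1 : ∑ j : Fin D, vec m v r t (e.symm j) * b ^ (j : ℕ) < b ^ D := by
      refine digits_lt b D _ fun j => ?_
      have := hvec t (e.symm j)
      omega
    simp only [X]
    omega
  · intro x hx y hy z hz w hw h
    obtain ⟨tx, -, rfl⟩ := Finset.mem_image.mp hx
    obtain ⟨ty, -, rfl⟩ := Finset.mem_image.mp hy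
    obtain ⟨tz, -, rfl⟩ := Finset.mem_image.mp hz
    obtain ⟨tw, -, rfl⟩ := Finset.mem_image.mp hw
    obtain ⟨h1, h2, h3⟩ := key tx ty tz tw h
    subst h1 h2 h3
    exact ⟨rfl, rfl, rfl⟩

section words

variable {K k n : ℕ} (m : ℕ) (S : Fin K → Fin k → ℕ)

/-- the finite bound from a certificate -/
theorem g_ge_cert (hm : 0 < m) (hK : 0 < K) (hS : ∀ a l, S a l < m)
    (p q h : Fin K → ℤ) (hz : ∀ a, p a + q a + 2 * h a = 0)
    (cert : ∀ a b c d : Fin K, (∀ l, (S a l + 3 * S b l) % m = (2 * S c l + 2 * S d l) % m) →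
      (a = b ∧ b = c ∧ c = d) ∨ 0 < p a + q b + h c + h d) (n : ℕ) :
    ∃ M : ℕ, K ^ n ≤ (n + 1) ^ K * M ∧ ∀ r, M ^ r ≤ gT ((4 * m ^ r) ^ (n * k)) := by
  classical
  obtain ⟨μ, hμ⟩ := exists_type (K := K) (n := n) hK
  refine ⟨_, hμ, fun r => ?_⟩
  have := g_ge_of_SA (W := {w : Fin n → Fin K // cnt w = μ}) (ι := Fin n × Fin k) m hm
    (fun w i => S (w.1 i.1) i.2) (fun w i => hS _ _)
    (fun x y z w H => words_SA m S p q h hz cert μ x y z w H) r
  simpa using this

end words

/-! ### asymptotics -/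

lemma g_mono {N N' : ℕ} (h : N ≤ N') : gT N ≤ gT N' := by
  refine csSup_le_csSup (g_bdd N') ⟨0, ∅, by simp, ?_, by simp⟩ ?_
  · intro x hx; simp at hx
  · rintro k ⟨A, hA, hadm, rfl⟩
    exact ⟨A, hA.trans (Finset.Icc_subset_Icc_right h), hadm, rfl⟩

theorem g_ge_rpow {K k : ℕ} (m : ℕ) (S : Fin K → Fin k → ℕ) (hm : 2 ≤ m) (hK : 2 ≤ K) (hk : 0 < k)
    (hS : ∀ a l, S a l < m)
    (p q h : Fin K → ℤ) (hz : ∀ a, p a + q a + 2 * h a = 0)
    (cert : ∀ a b c d : Fin K, (∀ l, (S a l + 3 * S b l) % m = (2 * S c l + 2 * S d l) % m) →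
      (a = b ∧ b = c ∧ c = d) ∨ 0 < p a + q b + h c + h d)
    (c : ℝ) (hc0 : 0 ≤ c) (hc : c < Real.log K / (k * Real.log m)) :
    ∃ N₀ : ℕ, ∀ N ≥ N₀, (N : ℝ) ^ c ≤ gT N := by
  have hlm : 0 < Real.log m := Real.log_pos (by exact_mod_cast hm)
  have hkR : (0 : ℝ) < k := by exact_mod_cast hk
  have hkm : 0 < (k : ℝ) * Real.log m := mul_pos hkR hlm
  have hδ : 0 < Real.log K - c * (k * Real.log m) := by
    rw [lt_div_iff₀ hkm] at hc
    linarith
  set δ := Real.log K - c * (k * Real.log m) with hδdef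
  -- choose n
  obtain ⟨n, hn1, hn⟩ : ∃ n : ℕ, 1 ≤ n ∧ (K : ℝ) * Real.log (n + 1) < n * δ := by
    have hlo := Real.isLittleO_log_id_atTop
    have h1 := hlo.def (show (0 : ℝ) < δ / (2 * (K : ℝ)) / 2 by
      have : (0 : ℝ) < K := by positivity
      positivity)
    have h2 := (tendsto_natCast_atTop_atTop (R := ℝ)).eventually h1
    obtain ⟨n, hn⟩ := (h2.and (Filter.eventually_ge_atTop 2)).exists
    obtain ⟨ha, hb⟩ := hn
    refine ⟨n - 1, by omega, ?_⟩
    have hKpos : (0 : ℝ) < K := by positivity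
    have hcast : ((n - 1 : ℕ) : ℝ) = (n : ℝ) - 1 := by
      rw [Nat.cast_sub (by omega)]; simp
    rw [hcast]
    have hn2 : (2 : ℝ) ≤ n := by exact_mod_cast hb
    simp only [id] at ha
    rw [Real.norm_of_nonneg (Real.log_nonneg (by linarith)),
      Real.norm_of_nonneg (by linarith)] at ha
    have e1 : (n : ℝ) - 1 + 1 = n := by ring
    rw [e1]
    have h3 : (K : ℝ) * Real.log n ≤ K * (δ / (2 * (K : ℝ)) / 2 * n) :=
      mul_le_mul_of_nonneg_left ha hKpos.le
    have h4 : K * (δ / (2 * (K : ℝ)) / 2 * n) = δ * n / 4 := by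
      field_simp
      ring
    rw [h4] at h3
    nlinarith
  obtain ⟨M, hM1, hM2⟩ := g_ge_cert m S (by omega) (by omega) hS p q h hz cert n
  have hM0 : 0 < M := by
    by_contra h0
    have : M = 0 := by omega
    rw [this] at hM1
    have : 0 < K ^ n := pow_pos (by omega) n
    omega
  have hMR : (0 : ℝ) < M := by exact_mod_cast hM0
  -- log M ≥ n log K - K log (n+1)
  have hlogM : (n : ℝ) * Real.log K - K * Real.log (n + 1) ≤ Real.log M := by
    have h1 : ((K : ℝ) ^ n) ≤ ((n : ℝ) + 1) ^ K * M := by exact_mod_cast hM1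
    have hKpos : (0 : ℝ) < K := by positivity
    have h2 := Real.log_le_log (by positivity) h1
    rw [Real.log_mul (by positivity) (by positivity), Real.log_pow, Real.log_pow] at h2
    linarith
  have hgap : 0 < Real.log M - c * (n * k * Real.log m) := by
    have : (n : ℝ) * δ = n * Real.log K - c * (n * k * Real.log m) := by
      rw [hδdef]; ring
    linarith
  set g := Real.log M - c * (n * k * Real.log m) with hg
  -- r large
  obtain ⟨r₀, hr₀⟩ := exists_nat_gt ((c * (n * k * (Real.log 4 + Real.log m))) / g)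
  have hmR : (0 : ℝ) < m := by positivity
  have hnk : 0 < n * k := Nat.mul_pos (by omega) hk
  refine ⟨(4 * m ^ r₀) ^ (n * k), fun N hN => ?_⟩
  -- largest r with (4 m^r)^(nk) ≤ N
  have hex : ∃ r, r₀ ≤ r ∧ (4 * m ^ r) ^ (n * k) ≤ N ∧ N < (4 * m ^ (r + 1)) ^ (n * k) := by
    have hunb : ∃ r, N < (4 * m ^ r) ^ (n * k) := by
      refine ⟨N, ?_⟩
      calc N < 2 ^ N := Nat.lt_two_pow_self
        _ ≤ m ^ N := Nat.pow_le_pow_left hm N
        _ ≤ 4 * m ^ N := Nat.le_mul_of_pos_left _ (by norm_num)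
        _ = (4 * m ^ N) ^ 1 := (pow_one _).symm
        _ ≤ (4 * m ^ N) ^ (n * k) := Nat.pow_le_pow_right (by
            have : 0 < m ^ N := pow_pos (by omega) N
            omega) hnk
    classical
    have hspec := Nat.find_spec hunb
    have hmin : ∀ t, t < Nat.find hunb → (4 * m ^ t) ^ (n * k) ≤ N := fun t ht => by
      have := Nat.find_min hunb ht
      omega
    have hpos : r₀ < Nat.find hunb := by
      by_contra hle
      push Not at hle
      have : (4 * m ^ (Nat.find hunb)) ^ (n * k) ≤ (4 * m ^ r₀) ^ (n * k) :=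
        Nat.pow_le_pow_left (Nat.mul_le_mul_left _ (Nat.pow_le_pow_right (by omega) hle)) _
      omega
    refine ⟨Nat.find hunb - 1, by omega, hmin _ (by omega), ?_⟩
    have e : Nat.find hunb - 1 + 1 = Nat.find hunb := by omega
    rw [e]
    exact hspec
  obtain ⟨r, hr, hrN, hNr⟩ := hex
  have h1 : (M : ℝ) ^ r ≤ gT N := by
    have := (hM2 r).trans (g_mono hrN)
    exact_mod_cast this
  have hNpos : 0 < N := by
    have : 0 < (4 * m ^ r) ^ (n * k) := pow_pos (by
      have : 0 < m ^ r := pow_pos (by omega) r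
      omega) _
    omega
  have hNR : (0 : ℝ) < N := by exact_mod_cast hNpos
  refine le_trans ?_ h1
  rw [← Real.log_le_log_iff (Real.rpow_pos_of_pos hNR c) (by positivity), Real.log_rpow hNR,
    Real.log_pow]
  have hlogN : Real.log N ≤ n * k * (Real.log 4 + (r + 1) * Real.log m) := by
    have h2 : (N : ℝ) ≤ ((4 : ℝ) * (m : ℝ) ^ (r + 1)) ^ (n * k) := by exact_mod_cast hNr.le
    have h3 := Real.log_le_log hNR h2
    rw [Real.log_pow, Real.log_mul (by norm_num) (by positivity), Real.log_pow] at h3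
    push_cast at h3
    exact h3
  have h5 : c * Real.log N ≤ c * (n * k * (Real.log 4 + (r + 1) * Real.log m)) :=
    mul_le_mul_of_nonneg_left hlogN hc0
  have h6 : c * (n * k * (Real.log 4 + Real.log m)) ≤ r * g := by
    have hrr : (r₀ : ℝ) ≤ r := by exact_mod_cast hr
    rw [div_lt_iff₀ hgap] at hr₀
    calc c * (n * k * (Real.log 4 + Real.log m)) ≤ r₀ * g := hr₀.le
      _ ≤ r * g := mul_le_mul_of_nonneg_right hrr hgap.le
  have h7 : c * (n * k * (Real.log 4 + (r + 1) * Real.log m))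
      = c * (n * k * (Real.log 4 + Real.log m)) + r * (c * (n * k * Real.log m)) := by ring
  have h8 : (r : ℝ) * g = r * Real.log M - r * (c * (n * k * Real.log m)) := by rw [hg]; ring
  linarith

end Pool.Agent.Y426.RZ
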